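import Pool.Agent.V11238.MG.AbCov

/-!
# Locally finite groups of exponent `p` covered by the conjugates of a proper abelian subgroup
-/

set_option autoImplicit false

open Subgroup Pool.Agent.V11238.MG

namespace Pool.Agent.Results.MP_1307d3_al.PerfectReduction

/-- `(G, A)` is an example for Q1 with the prime `p`: `G` is locally finite of exponent `p` and `A`
is a proper abelian subgroup whose conjugates cover `G`. -/
def Example (p : ℕ) (G : Type) [Group G] (A : Subgroup G) : Prop :=
  (∀ s : Set G, s.Finite → (closure s : Set G).Finite) ∧ (∀ g : G, g ^ p = 1) ∧ A ≠ ⊤ ∧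
    (∀ a ∈ A, ∀ b ∈ A, a * b = b * a) ∧ ∀ x : G, ∃ g : G, ∃ a ∈ A, x = g⁻¹ * a * g

theorem result (p : ℕ) (hp : p.Prime) (G : Type) [Group G] (A : Subgroup G)
    (h : Example p G A) :
    5 ≤ p ∧ ¬ Group.IsSolvable G ∧ ⁅commutator G, commutator G⁆ = commutator G ∧
    ∃ (Q : Type) (_ : Group Q) (B : Subgroup Q), Example p Q B ∧ Countable Q ∧
      commutator Q = ⊤ ∧ center Q = ⊥ ∧ B.normalCore = ⊥ := by
  obtain ⟨hlf, hexp, hne, hab, hcov⟩ := h
  have hc : CovAb A := by
    intro x
    obtain ⟨g, a, ha, rfl⟩ := hcov x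
    exact ⟨g, by simpa [mul_assoc] using ha⟩
  have hA : AbSub A := hab
  have hp2 : p ≠ 2 := by
    rintro rfl
    apply hne
    have hcomm : ∀ x y : G, x * y = y * x := by
      intro x y
      have h1 : ∀ z : G, z⁻¹ = z := fun z => by
        rw [inv_eq_iff_mul_eq_one, ← pow_two]; exact hexp z
      calc x * y = (x * y)⁻¹ := (h1 _).symm
        _ = y * x := by rw [mul_inv_rev, h1, h1]
    rw [eq_top_iff]
    intro g _
    obtain ⟨x, hx⟩ := hc g
    rwa [hcomm x g, mul_inv_cancel_right] at hx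
  have hp3 : p ≠ 3 := by
    rintro rfl
    exact hne (engel_not_cov (engel_of_exp_three hexp) hA hc)
  have hp5 : 5 ≤ p := by
    by_contra hcon
    have h1 := hp.two_le
    have h2 : p = 4 := by omega
    rw [h2] at hp
    exact absurd hp (by norm_num)
  obtain ⟨hperf, hns, -⟩ := abcov_main hc hA hne
  refine ⟨hp5, hns, hperf, ?_⟩
  obtain ⟨H, hH, hcH, hneH⟩ := hc.countable hne
  have hAH : AbSub (A.subgroupOf H) := fun x hx y hy => Subtype.ext (hA _ hx _ hy)
  obtain ⟨-, -, K, hK, B, h1, h2, h3, h4, h5, h6⟩ := abcov_main hcH hAH hneH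
  have hloc : LocFin G := fun S => hlf _ S.finite_toSet
  have hloc' : LocFin (commutator H ⧸ K) := ((hloc.subgroup H).subgroup (commutator H)).quot K
  refine ⟨commutator H ⧸ K, inferInstance, B, ⟨?_, ?_, h3, h2, ?_⟩, ?_, h4, h5, h6⟩
  · intro s hs
    have := hloc' hs.toFinset
    rwa [Set.Finite.coe_toFinset] at this
  · intro q
    obtain ⟨g, rfl⟩ := QuotientGroup.mk'_surjective K q
    rw [← map_pow]
    have hg : g ^ p = 1 := Subtype.ext (Subtype.ext (hexp _))
    rw [hg, map_one]
  · intro x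
    obtain ⟨g, hg⟩ := h1 x
    exact ⟨g, _, hg, by group⟩
  · exact Quotient.countable

end Pool.Agent.Results.MP_1307d3_al.PerfectReduction
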